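import Pool.Agent.Y872.L.Defs

/-!
Project LT (job 600): from vanishing correlations to a triple, the periodicity trick (`S_F`).
-/

set_option autoImplicit false

namespace Pool.Agent.Y814.LT

open Finset
open Pool.Agent.TH112.BL (LM Bd)
open Pool.Agent.Y872.L

/-- one step of the recursion `f (n + b) = - f n * f (n + a)` on windows of length `b` -/
def step (a b : ℕ) (ha : a < b) (x : Fin b → ℤˣ) : Fin b → ℤˣ := fun i =>
  if h : (i : ℕ) + 1 < b then x ⟨i + 1, h⟩ else -(x ⟨0, by omega⟩ * x ⟨a, ha⟩)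

theorem step_injective (a b : ℕ) (ha0 : 0 < a) (ha : a < b) :
    Function.Injective (step a b ha) := by
  intro x y h
  have h1 : ∀ i : ℕ, ∀ hi : i + 1 < b, x ⟨i + 1, hi⟩ = y ⟨i + 1, hi⟩ := by
    intro i hi
    have := congrFun h ⟨i, by omega⟩
    simpa [step, hi] using this
  have h2 : x ⟨0, by omega⟩ = y ⟨0, by omega⟩ := by
    have := congrFun h ⟨b - 1, by omega⟩
    have hb : ¬ (b - 1 + 1 < b) := by omega
    simp only [step, hb, dite_false] at this
    have h3 : x ⟨a, ha⟩ = y ⟨a, ha⟩ := by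
      obtain ⟨a', rfl⟩ : ∃ a', a = a' + 1 := ⟨a - 1, by omega⟩
      exact h1 a' ha
    rw [h3] at this
    simpa using this
  funext ⟨i, hi⟩
  rcases i with _ | i
  · exact h2
  · exact h1 i hi

/-- a period of the recursion -/
theorem exists_period (a b : ℕ) (ha0 : 0 < a) (ha : a < b) :
    ∃ P : ℕ, 0 < P ∧ ∀ x : Fin b → ℤˣ, (step a b ha)^[P] x = x := by
  classical
  have hbij : Function.Bijective (step a b ha) :=
    Finite.injective_iff_bijective.1 (step_injective a b ha0 ha)
  set e : Equiv.Perm (Fin b → ℤˣ) := Equiv.ofBijective _ hbij with he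
  refine ⟨Fintype.card (Equiv.Perm (Fin b → ℤˣ)), Fintype.card_pos, fun x => ?_⟩
  have h1 : e ^ Fintype.card (Equiv.Perm (Fin b → ℤˣ)) = 1 := pow_card_eq_one
  have h2 := congrArg (fun g : Equiv.Perm (Fin b → ℤˣ) => g x) h1
  simp only [Equiv.Perm.coe_one, id_eq] at h2
  rw [← Equiv.Perm.iterate_eq_pow] at h2
  exact h2

theorem periodic {f : ℕ → ℤ} (hf : CM f) {a b P : ℕ} (ha : a < b)
    (hP : ∀ x : Fin b → ℤˣ, (step a b ha)^[P] x = x) (n : ℕ) (hn : 0 < n)
    (h : ∀ j < P, f (n + j) * f (n + j + a) * f (n + j + b) = -1) : f (n + P) = f n := by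
  classical
  set u : ℕ → ℤˣ := fun k => if f k = 1 then 1 else -1 with hu
  have huf : ∀ k, 0 < k → ((u k : ℤˣ) : ℤ) = f k := by
    intro k hk
    rcases hf.val k hk with h1 | h1 <;> simp [hu, h1]
  set s : ℕ → Fin b → ℤˣ := fun k i => u (k + i) with hs
  have hstep : ∀ j < P, s (n + j + 1) = step a b ha (s (n + j)) := by
    intro j hj
    funext i
    simp only [step, hs]
    split_ifs with h1
    · congr 1; omega
    · have hi : (i : ℕ) + 1 = b := by have := i.2; omega
      apply Units.ext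
      push_cast
      have e1 : n + j + 1 + (i : ℕ) = n + j + b := by omega
      rw [e1, huf _ (by omega), huf _ (by omega), huf _ (by omega)]
      have h2 := h j hj
      have h3 := hf.val (n + j) (by omega)
      have h4 := hf.val (n + j + a) (by omega)
      have h5 := hf.val (n + j + b) (by omega)
      simp only [Nat.add_zero]
      rcases h3 with h3 | h3 <;> rcases h4 with h4 | h4 <;> rcases h5 with h5 | h5 <;>
        rw [h3, h4, h5] at h2 ⊢ <;> omega
  have hiter : ∀ j ≤ P, s (n + j) = (step a b ha)^[j] (s n) := by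
    intro j
    induction j with
    | zero => intro _; rfl
    | succ j ih =>
      intro hj
      rw [Function.iterate_succ', Function.comp_apply, ← ih (by omega)]
      exact hstep j (by omega)
  have h1 := hiter P le_rfl
  rw [hP] at h1
  have h2 := congrFun h1 ⟨0, by omega⟩
  simp only [hs, Nat.add_zero] at h2
  rw [← huf n hn, ← huf (n + P) (by omega), h2]

theorem bd_f {f : ℕ → ℤ} (hf : CM f) : Bd (fun n => (f n : ℝ)) := by
  refine ⟨1, fun n => ?_⟩
  show |(f n : ℝ)| ≤ 1
  rcases Nat.eq_zero_or_pos n with rfl | hn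
  · rw [hf.zero]; simp
  · rcases hf.val n hn with h | h <;> rw [h] <;> simp

theorem bd_mul {φ ψ : ℕ → ℝ} (h1 : Bd φ) (h2 : Bd ψ) : Bd (fun n => φ n * ψ n) := by
  obtain ⟨C, hC⟩ := h1
  obtain ⟨D, hD⟩ := h2
  refine ⟨C * D, fun n => ?_⟩
  rw [abs_mul]
  exact mul_le_mul (hC n) (hD n) (abs_nonneg _) ((abs_nonneg _).trans (hC n))

theorem fin : S_F := by
  intro μ f hf h0 hC a b ha hab
  by_contra hcon
  push Not at hcon
  have hB := bd_f hf
  have hBs : ∀ k, Bd (fun n => (f (n + k) : ℝ)) := fun k => hB.comp (fun n => n + k)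
  have hz : ∀ n : ℕ, 0 < n → ((f n : ℝ) = 1 ∨ (f n : ℝ) = -1) := by
    intro n hn
    rcases hf.val n hn with h | h <;> rw [h] <;> simp
  -- the product of three
  set T : ℕ → ℝ := fun n => (f n : ℝ) * f (n + a) * f (n + b) with hT
  have hBT : Bd T := bd_mul (bd_mul hB (hBs a)) (hBs b)
  have hexp : ∀ n : ℕ, 1 ≤ n → (1 : ℝ) + f n + f (n + a) + f (n + b) + f n * f (n + a) +
      f n * f (n + b) + f (n + a) * f (n + b) + T n = 0 := by
    intro n hn
    have h1 := hcon n hn
    have e : (1 : ℝ) + f n + f (n + a) + f (n + b) + f n * f (n + a) +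
        f n * f (n + b) + f (n + a) * f (n + b) + T n =
        (1 + f n) * (1 + f (n + a)) * (1 + f (n + b)) := by simp only [hT]; ring
    rw [e]
    rcases hf.val n hn with h2 | h2
    · rcases hf.val (n + a) (by omega) with h3 | h3
      · rcases hf.val (n + b) (by omega) with h4 | h4
        · exact absurd h4 (h1 h2 h3)
        · rw [h4]; push_cast; ring
      · rw [h3]; push_cast; ring
    · rw [h2]; push_cast; ring
  have hm1 : ∀ k, μ.m (fun n => (f (n + k) : ℝ)) = 0 := by
    intro k; rw [μ.shiftk k hB]; exact h0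
  have hC' : ∀ h : ℕ, 0 < h → ∀ k, μ.m (fun n => (f (n + k) : ℝ) * f (n + k + h)) = 0 := by
    intro h hh k
    have := μ.shiftk k (φ := fun n => (f n : ℝ) * f (n + h)) (bd_mul hB (hBs h))
    rw [this]
    exact hC h hh
  have hTm : μ.m T = -1 := by
    have h1 := μ.congr_large (φ := fun n => (1 : ℝ) + f n + f (n + a) + f (n + b) +
      f n * f (n + a) + f n * f (n + b) + f (n + a) * f (n + b) + T n) (ψ := fun _ => 0)
      ((((((((Bd.const 1).add hB).add (hBs a)).add (hBs b)).add (bd_mul hB (hBs a))).add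
        (bd_mul hB (hBs b))).add (bd_mul (hBs a) (hBs b))).add hBT) (Bd.const 0) 1 hexp
    rw [μ.zero] at h1
    rw [μ.add (fun n => (1 : ℝ) + f n + f (n + a) + f (n + b) + f n * f (n + a) +
        f n * f (n + b) + f (n + a) * f (n + b)) T
        ((((((((Bd.const 1).add hB).add (hBs a)).add (hBs b)).add (bd_mul hB (hBs a))).add
        (bd_mul hB (hBs b))).add (bd_mul (hBs a) (hBs b)))) hBT,
      μ.add (fun n => (1 : ℝ) + f n + f (n + a) + f (n + b) + f n * f (n + a) +
        f n * f (n + b)) (fun n => (f (n + a) : ℝ) * f (n + b))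
        (((((((Bd.const 1).add hB).add (hBs a)).add (hBs b)).add (bd_mul hB (hBs a))).add
        (bd_mul hB (hBs b)))) (bd_mul (hBs a) (hBs b)),
      μ.add (fun n => (1 : ℝ) + f n + f (n + a) + f (n + b) + f n * f (n + a))
        (fun n => (f n : ℝ) * f (n + b))
        ((((((Bd.const 1).add hB).add (hBs a)).add (hBs b)).add (bd_mul hB (hBs a))))
        (bd_mul hB (hBs b)),
      μ.add (fun n => (1 : ℝ) + f n + f (n + a) + f (n + b))
        (fun n => (f n : ℝ) * f (n + a))
        (((((Bd.const 1).add hB).add (hBs a)).add (hBs b))) (bd_mul hB (hBs a)),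
      μ.add (fun n => (1 : ℝ) + f n + f (n + a)) (fun n => (f (n + b) : ℝ))
        ((((Bd.const 1).add hB).add (hBs a))) (hBs b),
      μ.add (fun n => (1 : ℝ) + f n) (fun n => (f (n + a) : ℝ)) (((Bd.const 1).add hB)) (hBs a),
      μ.add (fun _ => (1 : ℝ)) (fun n => (f n : ℝ)) (Bd.const 1) hB, μ.one, h0, hm1 a, hm1 b] at h1
    have c1 : μ.m (fun n => (f n : ℝ) * f (n + a)) = 0 := hC a ha
    have c2 : μ.m (fun n => (f n : ℝ) * f (n + b)) = 0 := hC b (by omega)
    have c3 : μ.m (fun n => (f (n + a) : ℝ) * f (n + b)) = 0 := by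
      have := hC' (b - a) (by omega) a
      rw [← this]
      congr 1
      funext n
      rw [show n + a + (b - a) = n + b by omega]
    rw [c1, c2, c3] at h1
    linarith
  -- the exceptional function
  set g : ℕ → ℝ := fun n => 1 + T n with hg
  have hBg : Bd g := (Bd.const 1).add hBT
  have hgm : μ.m g = 0 := by
    rw [hg, μ.add (fun _ => (1 : ℝ)) T (Bd.const 1) hBT, μ.one, hTm]; ring
  obtain ⟨P, hP0, hP⟩ := exists_period a b ha hab
  have hg2 : ∀ n : ℕ, 0 < n → (g n = 0 ∧ f n * f (n + a) * f (n + b) = -1) ∨ g n = 2 := by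
    intro n hn
    simp only [hg, hT]
    rcases hf.val n hn with h2 | h2 <;> rcases hf.val (n + a) (by omega) with h3 | h3 <;>
      rcases hf.val (n + b) (by omega) with h4 | h4 <;> rw [h2, h3, h4] <;> norm_num
  have hkey : ∀ n : ℕ, |(f (n + 1 + P) : ℝ) - f (n + 1)| ≤ ∑ j ∈ range P, g (n + (1 + j)) := by
    intro n
    have hnn : ∀ j ∈ range P, 0 ≤ g (n + (1 + j)) := by
      intro j _
      rcases hg2 (n + (1 + j)) (by omega) with h | h
      · rw [h.1]
      · rw [h]; norm_num
    by_cases hall : ∀ j < P, f (n + 1 + j) * f (n + 1 + j + a) * f (n + 1 + j + b) = -1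
    · rw [periodic hf hab hP (n + 1) (by omega) hall]
      simp only [sub_self, abs_zero]
      exact Finset.sum_nonneg hnn
    · push Not at hall
      obtain ⟨j, hj, hne⟩ := hall
      have h2 : g (n + (1 + j)) = 2 := by
        rcases hg2 (n + (1 + j)) (by omega) with h | h
        · exfalso
          apply hne
          have := h.2
          rwa [show n + (1 + j) = n + 1 + j by omega] at this
        · exact h
      have h3 : (2 : ℝ) ≤ ∑ j ∈ range P, g (n + (1 + j)) := by
        rw [← h2]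
        exact Finset.single_le_sum hnn (mem_range.2 hj)
      refine le_trans ?_ h3
      rcases hz (n + 1 + P) (by omega) with h4 | h4 <;> rcases hz (n + 1) (by omega) with h5 | h5 <;>
        rw [h4, h5] <;> norm_num
  have hBd : Bd (fun n => (f (n + 1 + P) : ℝ) - f (n + 1)) := by
    have h1 : Bd (fun n => (f (n + 1 + P) : ℝ)) := hB.comp (fun n => n + 1 + P)
    have h2 := (hBs 1).cmul (-1)
    have := h1.add h2
    simpa [sub_eq_add_neg] using this
  have hBsum : ∀ j ∈ range P, Bd (fun n => g (n + (1 + j))) := fun j _ =>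
    hBg.comp (fun n => n + (1 + j))
  have hzero : μ.m (fun n => |(f (n + 1 + P) : ℝ) - f (n + 1)|) ≤ 0 := by
    refine (μ.mono hBd.abs (Bd.sum (range P) hBsum) hkey).trans ?_
    rw [μ.sum (range P) hBsum]
    refine (Finset.sum_eq_zero fun j _ => ?_).le
    rw [μ.shiftk (1 + j) hBg, hgm]
  have hCP := hC' P hP0 1
  have hlow : μ.m (fun n => (1 : ℝ) - |(f (n + 1 + P) : ℝ) - f (n + 1)|) ≤
      μ.m (fun n => (f (n + 1) : ℝ) * f (n + 1 + P)) := by
    refine μ.mono ?_ (bd_mul (hBs 1) (hB.comp (fun n => n + 1 + P))) ?_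
    · have := (Bd.const 1).add (hBd.abs.cmul (-1))
      simpa [sub_eq_add_neg] using this
    · intro n
      rcases hz (n + 1 + P) (by omega) with h4 | h4 <;> rcases hz (n + 1) (by omega) with h5 | h5 <;>
        rw [h4, h5] <;> norm_num
  rw [μ.sub (Bd.const 1) hBd.abs, μ.one, hCP] at hlow
  linarith

end Pool.Agent.Y814.LT
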