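import Pool.Agent.Y872.L.Defs

/-!
Project LT (job 596): windows `∑ g(n) w(log n - t) n^{-1-ik}` as functions of `t`: bounds,
continuity, reduction of residue classes to characters.
-/

set_option autoImplicit false

namespace Pool.Agent.Y814.LT

open Finset Filter
open Pool.Agent.H376R2.MR (ch w bw WN DP)
open Pool.Agent.H970R2.X (GGg)
open Pool.Agent.Y872.L

/-- the window sum as a function of the scale `t = log Y` -/
noncomputable def S (g : ℕ → ℂ) (k : ℤ) (t : ℝ) : ℂ :=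
  ∑ n ∈ WN (Real.exp t), g n * (bw (Real.exp t) n : ℂ) * ch k (Real.log n)

theorem norm_ch (k : ℤ) (x : ℝ) : ‖ch k x‖ = 1 := by
  unfold ch
  rw [← Complex.ofReal_neg, Complex.norm_exp_ofReal_mul_I]

theorem ch_add (k : ℤ) (x y : ℝ) : ch k (x + y) = ch k x * ch k y := by
  unfold ch
  rw [← Complex.exp_add]
  congr 1
  push_cast
  ring

theorem w_lip (x y : ℝ) : |w x - w y| ≤ |x - y| := by
  unfold w
  rw [max_comm 0, max_comm 0]
  refine (abs_max_sub_max_le_abs _ _ _).trans ?_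
  rw [show (1 - |x|) - (1 - |y|) = |y| - |x| by ring, abs_sub_comm x y]
  exact abs_abs_sub_abs_le_abs_sub y x

theorem w_nonneg (x : ℝ) : 0 ≤ w x := le_max_left _ _

theorem w_le_one (x : ℝ) : w x ≤ 1 := by
  unfold w
  refine max_le zero_le_one ?_
  linarith [abs_nonneg x]

theorem w_zero {x : ℝ} (h : 1 ≤ |x|) : w x = 0 := by
  unfold w
  exact max_eq_left (by linarith)

theorem bw_eq (t : ℝ) (n : ℕ) : bw (Real.exp t) n = w (Real.log n - t) / n := by
  unfold bw
  rw [Real.log_exp]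

theorem floor_eq (t : ℝ) : ⌊Real.exp 1 * Real.exp t⌋₊ = ⌊Real.exp (1 + t)⌋₊ := by
  rw [Real.exp_add]

theorem S_ext (g : ℕ → ℂ) (k : ℤ) (t : ℝ) (N : ℕ) (hN : ⌊Real.exp (1 + t)⌋₊ ≤ N) :
    S g k t = ∑ n ∈ Icc 1 N, g n * (bw (Real.exp t) n : ℂ) * ch k (Real.log n) := by
  unfold S WN
  rw [floor_eq]
  refine Finset.sum_subset (Icc_subset_Icc le_rfl hN) ?_
  intro n hn hn'
  rw [mem_Icc] at hn hn'
  have h1 : ⌊Real.exp (1 + t)⌋₊ < n := by
    by_contra h
    exact hn' ⟨hn.1, not_lt.1 h⟩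
  have h2 : Real.exp (1 + t) < n := (Nat.floor_lt (Real.exp_pos _).le).1 h1
  have h3 : 1 + t < Real.log n := by
    rw [Real.lt_log_iff_exp_lt (lt_trans (Real.exp_pos _) h2)]; exact h2
  rw [bw_eq, w_zero (by rw [abs_of_pos] <;> linarith)]
  simp

theorem card_le (x : ℝ) : ((Icc 1 ⌊Real.exp x⌋₊).card : ℝ) ≤ Real.exp x := by
  rw [Nat.card_Icc]
  simp only [Nat.add_sub_cancel]
  exact Nat.floor_le (Real.exp_pos _).le

theorem S_bound {g : ℕ → ℂ} (hg : ∀ n, ‖g n‖ ≤ 1) (k : ℤ) (t : ℝ) :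
    ‖S g k t‖ ≤ Real.exp 2 := by
  rw [S_ext g k t _ le_rfl]
  have h1 : ∀ n ∈ Icc 1 ⌊Real.exp (1 + t)⌋₊,
      ‖g n * (bw (Real.exp t) n : ℂ) * ch k (Real.log n)‖ ≤ Real.exp (1 - t) := by
    intro n hn
    rw [mem_Icc] at hn
    have hn0 : (0 : ℝ) < n := by exact_mod_cast hn.1
    rw [norm_mul, norm_mul, norm_ch, mul_one, Complex.norm_real, bw_eq, Real.norm_eq_abs]
    have h2 : |w (Real.log n - t) / n| ≤ Real.exp (1 - t) := by
      rw [abs_div, abs_of_nonneg (w_nonneg _), abs_of_pos hn0]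
      by_cases h3 : Real.log n ≤ t - 1
      · rw [w_zero (by rw [abs_of_nonpos] <;> linarith)]
        simp only [zero_div]
        exact (Real.exp_pos _).le
      · push Not at h3
        have h4 : Real.exp (t - 1) < n := (Real.lt_log_iff_exp_lt hn0).1 h3
        rw [div_le_iff₀ hn0]
        refine (w_le_one _).trans ?_
        have h5 : Real.exp (1 - t) * Real.exp (t - 1) = 1 := by
          rw [← Real.exp_add]; simp
        nlinarith [Real.exp_pos (1 - t)]
    calc ‖g n‖ * |w (Real.log n - t) / n| ≤ 1 * Real.exp (1 - t) :=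
          mul_le_mul (hg n) h2 (abs_nonneg _) zero_le_one
      _ = _ := one_mul _
  refine (norm_sum_le _ _).trans ((Finset.sum_le_card_nsmul _ _ _ h1).trans ?_)
  rw [nsmul_eq_mul]
  calc ((Icc 1 ⌊Real.exp (1 + t)⌋₊).card : ℝ) * Real.exp (1 - t)
      ≤ Real.exp (1 + t) * Real.exp (1 - t) :=
        mul_le_mul_of_nonneg_right (card_le _) (Real.exp_pos _).le
    _ = Real.exp 2 := by rw [← Real.exp_add]; congr 1; ring

theorem S_lip {g : ℕ → ℂ} (hg : ∀ n, ‖g n‖ ≤ 1) (k : ℤ) (t t' : ℝ) (h : t ≤ t')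
    (h' : t' ≤ t + 1) : ‖S g k t - S g k t'‖ ≤ Real.exp 3 * (t' - t) := by
  have hmono : ⌊Real.exp (1 + t)⌋₊ ≤ ⌊Real.exp (1 + t')⌋₊ :=
    Nat.floor_le_floor (Real.exp_le_exp.2 (by linarith))
  rw [S_ext g k t _ hmono, S_ext g k t' _ le_rfl, ← Finset.sum_sub_distrib]
  have h1 : ∀ n ∈ Icc 1 ⌊Real.exp (1 + t')⌋₊,
      ‖g n * (bw (Real.exp t) n : ℂ) * ch k (Real.log n) -
        g n * (bw (Real.exp t') n : ℂ) * ch k (Real.log n)‖ ≤ Real.exp (1 - t) * (t' - t) := by
    intro n hn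
    rw [mem_Icc] at hn
    have hn0 : (0 : ℝ) < n := by exact_mod_cast hn.1
    rw [show g n * (bw (Real.exp t) n : ℂ) * ch k (Real.log n) -
        g n * (bw (Real.exp t') n : ℂ) * ch k (Real.log n) =
        g n * ((bw (Real.exp t) n - bw (Real.exp t') n : ℝ) : ℂ) * ch k (Real.log n) by
          push_cast; ring]
    rw [norm_mul, norm_mul, norm_ch, mul_one, Complex.norm_real, bw_eq, bw_eq, Real.norm_eq_abs,
      ← sub_div]
    have h2 : |(w (Real.log n - t) - w (Real.log n - t')) / n| ≤ Real.exp (1 - t) * (t' - t) := by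
      rw [abs_div, abs_of_pos hn0]
      by_cases h3 : Real.log n ≤ t - 1
      · rw [w_zero (by rw [abs_of_nonpos] <;> linarith),
          w_zero (by rw [abs_of_nonpos] <;> linarith)]
        simp only [sub_self, abs_zero, zero_div]
        exact mul_nonneg (Real.exp_pos _).le (by linarith)
      · push Not at h3
        have h4 : Real.exp (t - 1) < n := (Real.lt_log_iff_exp_lt hn0).1 h3
        rw [div_le_iff₀ hn0]
        refine (w_lip _ _).trans ?_
        rw [show Real.log n - t - (Real.log n - t') = t' - t by ring,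
          abs_of_nonneg (by linarith)]
        have h5 : Real.exp (1 - t) * Real.exp (t - 1) = 1 := by
          rw [← Real.exp_add]; simp
        have h6 : 1 ≤ Real.exp (1 - t) * n := by nlinarith [Real.exp_pos (1 - t)]
        nlinarith
    calc ‖g n‖ * |(w (Real.log n - t) - w (Real.log n - t')) / n|
        ≤ 1 * (Real.exp (1 - t) * (t' - t)) :=
          mul_le_mul (hg n) h2 (abs_nonneg _) zero_le_one
      _ = _ := one_mul _
  refine (norm_sum_le _ _).trans ((Finset.sum_le_card_nsmul _ _ _ h1).trans ?_)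
  rw [nsmul_eq_mul]
  have h7 : ((Icc 1 ⌊Real.exp (1 + t')⌋₊).card : ℝ) ≤ Real.exp (2 + t) :=
    (card_le _).trans (Real.exp_le_exp.2 (by linarith))
  calc ((Icc 1 ⌊Real.exp (1 + t')⌋₊).card : ℝ) * (Real.exp (1 - t) * (t' - t))
      ≤ Real.exp (2 + t) * (Real.exp (1 - t) * (t' - t)) :=
        mul_le_mul_of_nonneg_right h7 (mul_nonneg (Real.exp_pos _).le (by linarith))
    _ = Real.exp 3 * (t' - t) := by
        rw [← mul_assoc, ← Real.exp_add]; congr 2; ring

theorem S_cont {g : ℕ → ℂ} (hg : ∀ n, ‖g n‖ ≤ 1) (k : ℤ) : Continuous (S g k) := by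
  rw [Metric.continuous_iff]
  intro t ε hε
  refine ⟨min 1 (ε / Real.exp 3), lt_min one_pos (div_pos hε (Real.exp_pos _)), ?_⟩
  intro t' ht'
  rw [Real.dist_eq, lt_min_iff] at ht'
  have h1 : Real.exp 3 * |t' - t| < ε := by
    have := ht'.2
    rw [lt_div_iff₀ (Real.exp_pos _)] at this
    linarith
  rw [dist_eq_norm]
  rcases le_total t t' with h | h
  · have h2 := S_lip hg k t t' h (by linarith [ht'.1, le_abs_self (t' - t)])
    rw [abs_of_nonneg (by linarith)] at h1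
    rw [norm_sub_rev]
    linarith
  · have h2 := S_lip hg k t' t h (by linarith [ht'.1, neg_abs_le (t' - t)])
    rw [abs_of_nonpos (by linarith)] at h1
    linarith

theorem S_sq_int {g : ℕ → ℂ} (hg : ∀ n, ‖g n‖ ≤ 1) (k : ℤ) (a b : ℝ) :
    IntervalIntegrable (fun t => ‖S g k t‖ ^ 2) MeasureTheory.volume a b :=
  ((S_cont hg k).norm.pow 2).intervalIntegrable a b

end Pool.Agent.Y814.LT
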