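import Pool.Agent.Y872.L.Defs
import Pool.Agent.Y814.LT.Win

/-!
Project LT (job 596): small frequencies in residue classes at integer scales (`S_LOW`).
-/

set_option autoImplicit false

namespace Pool.Agent.Y814.LT

open Finset Filter
open Pool.Agent.H376R2.MR (ch w bw WN DP)
open Pool.Agent.H970R2.X (GGg)
open Pool.Agent.Y872.L

theorem GGg_eq (g : ℕ → ℤ) (k : ℤ) (t : ℝ) :
    GGg g (Real.exp t) k = S (fun n => (g n : ℂ)) k t := rfl

/-- mean squares are small -/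
def Sml (g : ℕ → ℂ) (k : ℤ) : Prop := ∀ ε : ℝ, 0 < ε → ∃ T₀ : ℝ, 0 < T₀ ∧ ∀ T : ℝ, T₀ ≤ T →
  ∫ t in (0 : ℝ)..T, ‖S g k t‖ ^ 2 ≤ ε * T

theorem norm_f {f : ℕ → ℤ} (hf : CM f) (n : ℕ) : ‖(f n : ℂ)‖ ≤ 1 := by
  rcases Nat.eq_zero_or_pos n with rfl | hn
  · rw [hf.zero]; simp
  · rcases hf.val n hn with h | h <;> rw [h] <;> simp

theorem sml_char (h1 : S_SUP) (h2 : S_LOWC) {f : ℕ → ℤ} (hf : CM f) (hn : NonPret f)
    {q : ℕ} (hq : 0 < q) (χ : DirichletCharacter ℂ q) (k : ℤ) :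
    Sml (fun n => (f n : ℂ) * χ (n : ZMod q)) k := by
  have hc := h2 (fun n => (f n : ℂ) * χ (n : ZMod q)) (by simp [hf.zero])
    (by simp [hf.one]) (fun m n => by
      simp only [hf.mul, Nat.cast_mul, map_mul]
      push_cast
      ring)
    (fun n => by
      rw [norm_mul]
      calc ‖(f n : ℂ)‖ * ‖χ (n : ZMod q)‖ ≤ 1 * 1 :=
            mul_le_mul (norm_f hf n) (DirichletCharacter.norm_le_one χ _) (norm_nonneg _)
              zero_le_one
        _ = 1 := one_mul 1)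
    (h1 f hf hn q hq χ)
  intro ε hε
  obtain ⟨T₀, hT₀, hT⟩ := hc k ε hε
  exact ⟨T₀, hT₀, hT⟩

theorem S_sum {ι : Type*} (s : Finset ι) (a : ι → ℂ) (g : ι → ℕ → ℂ) (k : ℤ) (t : ℝ) :
    S (fun n => ∑ i ∈ s, a i * g i n) k t = ∑ i ∈ s, a i * S (g i) k t := by
  unfold S
  simp only [Finset.sum_mul, Finset.mul_sum]
  rw [Finset.sum_comm]
  refine Finset.sum_congr rfl fun i _ => Finset.sum_congr rfl fun n _ => ?_
  ring

theorem rs_eq {f : ℕ → ℤ} {q c : ℕ} (hq : 0 < q) (hc : c < q) (hcop : c.Coprime q) (n : ℕ) :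
    ((rs f q c n : ℤ) : ℂ) = ∑ χ : DirichletCharacter ℂ q,
      (χ (c : ZMod q)⁻¹ / (q.totient : ℂ)) * ((f n : ℂ) * χ (n : ZMod q)) := by
  have : NeZero q := ⟨hq.ne'⟩
  have hu : IsUnit (c : ZMod q) := (ZMod.isUnit_iff_coprime c q).2 hcop
  have h1 := DirichletCharacter.sum_char_inv_mul_char_eq ℂ hu (n : ZMod q)
  have ht : (q.totient : ℂ) ≠ 0 := by
    exact_mod_cast (Nat.totient_pos.2 hq).ne'
  have h2 : ∑ χ : DirichletCharacter ℂ q,
      (χ (c : ZMod q)⁻¹ / (q.totient : ℂ)) * ((f n : ℂ) * χ (n : ZMod q)) =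
      ((f n : ℂ) / q.totient) * ∑ χ : DirichletCharacter ℂ q, χ (c : ZMod q)⁻¹ * χ (n : ZMod q) := by
    rw [Finset.mul_sum]
    refine Finset.sum_congr rfl fun χ _ => ?_
    field_simp
  rw [h2, h1]
  unfold rs
  by_cases h3 : n % q = c
  · have h4 : (c : ZMod q) = (n : ZMod q) := by
      rw [← h3]; exact ZMod.natCast_mod n q
    rw [if_pos h3, if_pos h4]
    field_simp
  · have h4 : ¬ (c : ZMod q) = (n : ZMod q) := by
      intro h5
      apply h3
      have h6 := (ZMod.natCast_eq_natCast_iff c n q).1 h5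
      have h7 : c % q = n % q := h6
      rw [← h7]
      exact Nat.mod_eq_of_lt hc
    rw [if_neg h3, if_neg h4]
    simp

theorem norm_rs {f : ℕ → ℤ} (hf : CM f) (q c n : ℕ) : ‖((rs f q c n : ℤ) : ℂ)‖ ≤ 1 := by
  unfold rs
  split_ifs
  · exact norm_f hf n
  · simp

theorem sml_cop (h1 : S_SUP) (h2 : S_LOWC) {f : ℕ → ℤ} (hf : CM f) (hn : NonPret f)
    {q c : ℕ} (hq : 0 < q) (hc : c < q) (hcop : c.Coprime q) (k : ℤ) :
    Sml (fun n => ((rs f q c n : ℤ) : ℂ)) k := by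
  intro ε hε
  have hq' : NeZero q := ⟨hq.ne'⟩
  set K : ℝ := ((Fintype.card (DirichletCharacter ℂ q) : ℕ) : ℝ) with hK
  have hK0 : 0 < K := by
    rw [hK]
    exact_mod_cast Fintype.card_pos
  have hex : ∀ χ : DirichletCharacter ℂ q, ∃ T₀ : ℝ, 0 < T₀ ∧ ∀ T : ℝ, T₀ ≤ T →
      ∫ t in (0 : ℝ)..T, ‖S (fun n => (f n : ℂ) * χ (n : ZMod q)) k t‖ ^ 2 ≤ ε / (K * K) * T :=
    fun χ => sml_char h1 h2 hf hn hq χ k _ (div_pos hε (mul_pos hK0 hK0))
  choose T₁ hT₁ hT₂ using hex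
  refine ⟨∑ χ, T₁ χ, Finset.sum_pos (fun χ _ => hT₁ χ) ⟨1, mem_univ _⟩, ?_⟩
  intro T hT
  have hT0 : 0 ≤ T := le_trans (Finset.sum_nonneg fun χ _ => (hT₁ χ).le) hT
  have hb : ∀ χ : DirichletCharacter ℂ q, ∀ n, ‖(f n : ℂ) * χ (n : ZMod q)‖ ≤ 1 := by
    intro χ n
    rw [norm_mul]
    calc ‖(f n : ℂ)‖ * ‖χ (n : ZMod q)‖ ≤ 1 * 1 :=
          mul_le_mul (norm_f hf n) (DirichletCharacter.norm_le_one χ _) (norm_nonneg _)
            zero_le_one
      _ = 1 := one_mul 1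
  have hle : ∀ t : ℝ, ‖S (fun n => ((rs f q c n : ℤ) : ℂ)) k t‖ ^ 2 ≤
      ∑ χ : DirichletCharacter ℂ q, K * ‖S (fun n => (f n : ℂ) * χ (n : ZMod q)) k t‖ ^ 2 := by
    intro t
    have e1 : (fun n => ((rs f q c n : ℤ) : ℂ)) = fun n => ∑ χ : DirichletCharacter ℂ q,
        (χ (c : ZMod q)⁻¹ / (q.totient : ℂ)) * ((f n : ℂ) * χ (n : ZMod q)) := by
      funext n; exact rs_eq hq hc hcop n
    rw [e1, S_sum]
    have e2 : ‖∑ χ : DirichletCharacter ℂ q, (χ (c : ZMod q)⁻¹ / (q.totient : ℂ)) *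
        S (fun n => (f n : ℂ) * χ (n : ZMod q)) k t‖ ≤
        ∑ χ : DirichletCharacter ℂ q, ‖S (fun n => (f n : ℂ) * χ (n : ZMod q)) k t‖ := by
      refine (norm_sum_le _ _).trans (Finset.sum_le_sum fun χ _ => ?_)
      rw [norm_mul]
      have e3 : ‖χ (c : ZMod q)⁻¹ / (q.totient : ℂ)‖ ≤ 1 := by
        rw [norm_div, Complex.norm_natCast]
        have e4 : (1 : ℝ) ≤ q.totient := by exact_mod_cast Nat.totient_pos.2 hq
        exact (div_le_one (by linarith)).2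
          ((DirichletCharacter.norm_le_one χ _).trans e4)
      exact mul_le_of_le_one_left (norm_nonneg _) e3
    calc ‖∑ χ : DirichletCharacter ℂ q, (χ (c : ZMod q)⁻¹ / (q.totient : ℂ)) *
          S (fun n => (f n : ℂ) * χ (n : ZMod q)) k t‖ ^ 2
        ≤ (∑ χ : DirichletCharacter ℂ q, ‖S (fun n => (f n : ℂ) * χ (n : ZMod q)) k t‖) ^ 2 :=
          pow_le_pow_left₀ (norm_nonneg _) e2 2
      _ ≤ (univ : Finset (DirichletCharacter ℂ q)).card *
          ∑ χ : DirichletCharacter ℂ q, ‖S (fun n => (f n : ℂ) * χ (n : ZMod q)) k t‖ ^ 2 :=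
          sq_sum_le_card_mul_sum_sq
      _ = _ := by rw [Finset.mul_sum]; rfl
  have hint : ∀ χ ∈ (univ : Finset (DirichletCharacter ℂ q)), IntervalIntegrable
      (fun t => K * ‖S (fun n => (f n : ℂ) * χ (n : ZMod q)) k t‖ ^ 2)
      MeasureTheory.volume 0 T := fun χ _ => (S_sq_int (hb χ) k 0 T).const_mul K
  have hsumint : IntervalIntegrable (fun t => ∑ χ : DirichletCharacter ℂ q,
      K * ‖S (fun n => (f n : ℂ) * χ (n : ZMod q)) k t‖ ^ 2) MeasureTheory.volume 0 T := by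
    have h3 : Continuous (fun t => ∑ χ : DirichletCharacter ℂ q,
      K * ‖S (fun n => (f n : ℂ) * χ (n : ZMod q)) k t‖ ^ 2) := by
      refine continuous_finsetSum _ fun χ _ => ?_
      exact continuous_const.mul ((S_cont (hb χ) k).norm.pow 2)
    exact h3.intervalIntegrable 0 T
  calc ∫ t in (0 : ℝ)..T, ‖S (fun n => ((rs f q c n : ℤ) : ℂ)) k t‖ ^ 2
      ≤ ∫ t in (0 : ℝ)..T, ∑ χ : DirichletCharacter ℂ q,
          K * ‖S (fun n => (f n : ℂ) * χ (n : ZMod q)) k t‖ ^ 2 :=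
        intervalIntegral.integral_mono_on hT0 (S_sq_int (norm_rs hf q c) k 0 T) hsumint
          fun t _ => hle t
    _ = ∑ χ : DirichletCharacter ℂ q, K *
          ∫ t in (0 : ℝ)..T, ‖S (fun n => (f n : ℂ) * χ (n : ZMod q)) k t‖ ^ 2 := by
        rw [intervalIntegral.integral_finsetSum hint]
        refine Finset.sum_congr rfl fun χ _ => ?_
        rw [intervalIntegral.integral_const_mul]
    _ ≤ ∑ χ : DirichletCharacter ℂ q, K * (ε / (K * K) * T) := by
        refine Finset.sum_le_sum fun χ _ => mul_le_mul_of_nonneg_left ?_ hK0.le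
        refine hT₂ χ T (le_trans ?_ hT)
        exact Finset.single_le_sum (f := T₁) (fun χ _ => (hT₁ χ).le) (mem_univ χ)
    _ = ε * T := by
        rw [Finset.sum_const, nsmul_eq_mul]
        have : ((univ : Finset (DirichletCharacter ℂ q)).card : ℝ) = K := rfl
        rw [this]
        field_simp

/-- reduction to a coprime class -/
theorem S_scale {f : ℕ → ℤ} (hf : CM f) {d q c : ℕ} (hd : 0 < d) (k : ℤ) (t : ℝ) :
    S (fun n => ((rs f (d * q) (d * c) n : ℤ) : ℂ)) k t =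
      ((f d : ℂ) / d * ch k (Real.log d)) *
        S (fun n => ((rs f q c n : ℤ) : ℂ)) k (t - Real.log d) := by
  have hd0 : (0 : ℝ) < d := by exact_mod_cast hd
  have hexp : Real.exp (1 + (t - Real.log d)) = Real.exp (1 + t) / d := by
    rw [show 1 + (t - Real.log d) = (1 + t) - Real.log d by ring, Real.exp_sub, Real.exp_log hd0]
  rw [S_ext _ k t _ le_rfl, S_ext _ k (t - Real.log d) _ le_rfl]
  rw [hexp]
  set F : ℕ → ℂ := fun n => ((rs f (d * q) (d * c) n : ℤ) : ℂ) * (bw (Real.exp t) n : ℂ) *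
    ch k (Real.log n) with hF
  have hinj : Set.InjOn (fun n : ℕ => d * n) (Icc 1 ⌊Real.exp (1 + t) / d⌋₊ : Set ℕ) := by
    intro x _ y _ h
    exact Nat.eq_of_mul_eq_mul_left hd h
  have hsub : (Icc 1 ⌊Real.exp (1 + t) / d⌋₊).image (fun n => d * n) ⊆
      Icc 1 ⌊Real.exp (1 + t)⌋₊ := by
    intro m hm
    rw [mem_image] at hm
    obtain ⟨n, hn, rfl⟩ := hm
    rw [mem_Icc] at hn ⊢
    refine ⟨Nat.mul_pos hd hn.1, ?_⟩
    have h1 : (n : ℝ) ≤ Real.exp (1 + t) / d := (Nat.le_floor_iff (by positivity)).1 hn.2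
    rw [Nat.le_floor_iff (Real.exp_pos _).le]
    push_cast
    rw [le_div_iff₀ hd0] at h1
    linarith
  rw [← Finset.sum_subset hsub (f := F)]
  · rw [Finset.sum_image hinj, Finset.mul_sum]
    refine Finset.sum_congr rfl fun n hn => ?_
    rw [mem_Icc] at hn
    have hn0 : (0 : ℝ) < n := by exact_mod_cast hn.1
    have e1 : ((rs f (d * q) (d * c) (d * n) : ℤ) : ℂ) = (f d : ℂ) * ((rs f q c n : ℤ) : ℂ) := by
      unfold rs
      rw [Nat.mul_mod_mul_left]
      by_cases h : n % q = c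
      · rw [if_pos h, if_pos (by rw [h]), hf.mul]; push_cast; ring
      · rw [if_neg h, if_neg (fun h' => h (Nat.eq_of_mul_eq_mul_left hd h'))]; simp
    have e2 : Real.log ((d * n : ℕ) : ℝ) = Real.log d + Real.log n := by
      push_cast
      exact Real.log_mul hd0.ne' hn0.ne'
    have e3 : (bw (Real.exp t) (d * n) : ℂ) = (bw (Real.exp (t - Real.log d)) n : ℂ) / d := by
      rw [bw_eq, bw_eq, e2, show Real.log d + Real.log n - t = Real.log n - (t - Real.log d) by ring]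
      push_cast
      field_simp
    simp only [hF]
    rw [e1, e2, e3, ch_add]
    field_simp
  · intro m hm hm'
    have h1 : ¬ d ∣ m := by
      rintro ⟨n, rfl⟩
      apply hm'
      rw [mem_image]
      refine ⟨n, ?_, rfl⟩
      rw [mem_Icc] at hm ⊢
      refine ⟨Nat.pos_of_mul_pos_left hm.1, ?_⟩
      rw [Nat.le_floor_iff (by positivity), le_div_iff₀ hd0]
      have := (Nat.le_floor_iff (Real.exp_pos _).le).1 hm.2
      push_cast at this
      linarith
    have h2 : rs f (d * q) (d * c) m = 0 := by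
      unfold rs
      rw [if_neg]
      intro h
      apply h1
      have h3 : d ∣ m % (d * q) := by rw [h]; exact dvd_mul_right _ _
      exact (Nat.dvd_mod_iff (dvd_mul_right d q)).1 h3
    simp only [hF, h2]
    simp

theorem low : S_SUP → S_LOWC → S_LOW := by
  intro h1 h2 f hf hn q c hq hc k
  -- the coprime class
  obtain ⟨d, q', c', hd, hq', hc', hcop, rfl, rfl⟩ : ∃ d q' c' : ℕ, 0 < d ∧ 0 < q' ∧ c' < q' ∧
      c'.Coprime q' ∧ q = d * q' ∧ c = d * c' := by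
    have hd : 0 < c.gcd q := Nat.gcd_pos_of_pos_right c hq
    refine ⟨c.gcd q, q / c.gcd q, c / c.gcd q, hd,
      Nat.div_pos (Nat.le_of_dvd hq (Nat.gcd_dvd_right c q)) hd, ?_, ?_, ?_, ?_⟩
    · exact Nat.div_lt_div_of_lt_of_dvd (Nat.gcd_dvd_right c q) hc
    · exact Nat.coprime_div_gcd_div_gcd hd
    · exact (Nat.mul_div_cancel' (Nat.gcd_dvd_right c q)).symm
    · exact (Nat.mul_div_cancel' (Nat.gcd_dvd_left c q)).symm
  set A : ℝ → ℂ := S (fun n => ((rs f q' c' n : ℤ) : ℂ)) k with hA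
  have hA1 : ∀ t, ‖A t‖ ≤ Real.exp 2 := fun t => S_bound (norm_rs hf q' c') k t
  have hd0 : (1 : ℝ) ≤ d := by exact_mod_cast hd
  have hlogd : 0 ≤ Real.log d := Real.log_nonneg hd0
  have hB : ∀ i : ℕ, ‖GGg (rs f (d * q') (d * c')) (Real.exp i) k‖ ≤ ‖A (i - Real.log d)‖ := by
    intro i
    rw [GGg_eq, S_scale hf hd, norm_mul, norm_mul, norm_ch, mul_one, norm_div,
      Complex.norm_natCast]
    refine mul_le_of_le_one_left (norm_nonneg _) ?_
    exact (div_le_one (by linarith)).2 ((norm_f hf d).trans hd0)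
  have hcont : Continuous (fun t => ‖A t‖ ^ 2) := (S_cont (norm_rs hf q' c') k).norm.pow 2
  have hsml := sml_cop h1 h2 hf hn hq' hc' hcop k
  -- the local comparison
  have hloc : ∀ ρ : ℝ, 0 < ρ → ρ ≤ 1 → ∀ x : ℝ,
      ρ * ‖A x‖ ^ 2 ≤ 2 * (∫ t in x..(x + 1), ‖A t‖ ^ 2) + 2 * Real.exp 3 ^ 2 * ρ ^ 3 := by
    intro ρ hρ hρ1 x
    have e1 : ∀ t ∈ Set.Icc x (x + ρ),
        ‖A x‖ ^ 2 ≤ 2 * ‖A t‖ ^ 2 + 2 * Real.exp 3 ^ 2 * ρ ^ 2 := by
      intro t ht
      have e2 := S_lip (norm_rs hf q' c') k x t ht.1 (by linarith [ht.2])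
      have e3 : ‖A x‖ ≤ ‖A t‖ + Real.exp 3 * ρ := by
        have e4 : ‖A x‖ ≤ ‖A t‖ + ‖A x - A t‖ := by
          have := norm_add_le (A t) (A x - A t)
          simpa using this
        have e5 : Real.exp 3 * (t - x) ≤ Real.exp 3 * ρ :=
          mul_le_mul_of_nonneg_left (by linarith [ht.2]) (Real.exp_pos _).le
        linarith
      have e6 : ‖A x‖ ^ 2 ≤ (‖A t‖ + Real.exp 3 * ρ) ^ 2 :=
        pow_le_pow_left₀ (norm_nonneg _) e3 2
      nlinarith [sq_nonneg (‖A t‖ - Real.exp 3 * ρ)]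
    have e7 : ∫ t in x..(x + ρ), ‖A x‖ ^ 2 ≤
        ∫ t in x..(x + ρ), (2 * ‖A t‖ ^ 2 + 2 * Real.exp 3 ^ 2 * ρ ^ 2) := by
      refine intervalIntegral.integral_mono_on (by linarith) ?_ ?_ e1
      · exact continuous_const.intervalIntegrable _ _
      · exact ((continuous_const.mul hcont).add continuous_const).intervalIntegrable _ _
    have i1 : IntervalIntegrable (fun t => 2 * ‖A t‖ ^ 2) MeasureTheory.volume x (x + ρ) :=
      (continuous_const.mul hcont).intervalIntegrable _ _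
    have i2 : IntervalIntegrable (fun _ : ℝ => 2 * Real.exp 3 ^ 2 * ρ ^ 2)
        MeasureTheory.volume x (x + ρ) := continuous_const.intervalIntegrable _ _
    rw [intervalIntegral.integral_const, intervalIntegral.integral_add i1 i2,
      intervalIntegral.integral_const_mul, intervalIntegral.integral_const] at e7
    have e8 : ∫ t in x..(x + ρ), ‖A t‖ ^ 2 ≤ ∫ t in x..(x + 1), ‖A t‖ ^ 2 := by
      refine intervalIntegral.integral_mono_interval le_rfl (by linarith) (by linarith) ?_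
        (hcont.intervalIntegrable _ _)
      exact Filter.Eventually.of_forall fun t => by positivity
    simp only [add_sub_cancel_left, smul_eq_mul] at e7
    nlinarith
  -- the sum over the scales
  have hsum : ∀ ρ : ℝ, 0 < ρ → ρ ≤ 1 → ∀ I : ℕ,
      ρ * ∑ i ∈ range I, ‖GGg (rs f (d * q') (d * c')) (Real.exp i) k‖ ^ 2 ≤
      2 * (Real.exp 2 ^ 2 * Real.log d + ∫ t in (0 : ℝ)..I, ‖A t‖ ^ 2) +
        2 * Real.exp 3 ^ 2 * ρ ^ 3 * I := by
    intro ρ hρ hρ1 I
    have e1 : ρ * ∑ i ∈ range I, ‖GGg (rs f (d * q') (d * c')) (Real.exp i) k‖ ^ 2 ≤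
        ∑ i ∈ range I, (2 * (∫ t in ((i : ℝ) - Real.log d)..(((i + 1 : ℕ) : ℝ) - Real.log d),
          ‖A t‖ ^ 2) + 2 * Real.exp 3 ^ 2 * ρ ^ 3) := by
      rw [Finset.mul_sum]
      refine Finset.sum_le_sum fun i _ => ?_
      have e2 := hloc ρ hρ hρ1 (i - Real.log d)
      have e3 : ((i : ℝ) - Real.log d) + 1 = ((i + 1 : ℕ) : ℝ) - Real.log d := by
        push_cast; ring
      rw [e3] at e2
      refine le_trans ?_ e2
      refine mul_le_mul_of_nonneg_left ?_ hρ.le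
      exact pow_le_pow_left₀ (norm_nonneg _) (hB i) 2
    rw [Finset.sum_add_distrib, ← Finset.mul_sum, Finset.sum_const, card_range, nsmul_eq_mul,
      intervalIntegral.sum_integral_adjacent_intervals
        (a := fun i : ℕ => (i : ℝ) - Real.log d) (fun i _ => hcont.intervalIntegrable _ _)] at e1
    have e4 : ∫ t in (((0 : ℕ) : ℝ) - Real.log d)..((I : ℝ) - Real.log d), ‖A t‖ ^ 2 ≤
        Real.exp 2 ^ 2 * Real.log d + ∫ t in (0 : ℝ)..I, ‖A t‖ ^ 2 := by
      have e5 : ∫ t in (((0 : ℕ) : ℝ) - Real.log d)..((I : ℝ) - Real.log d), ‖A t‖ ^ 2 ≤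
          ∫ t in (((0 : ℕ) : ℝ) - Real.log d)..(I : ℝ), ‖A t‖ ^ 2 := by
        refine intervalIntegral.integral_mono_interval le_rfl ?_ (by linarith) ?_
          (hcont.intervalIntegrable _ _)
        · push_cast
          have : (0 : ℝ) ≤ I := Nat.cast_nonneg I
          linarith
        · exact Filter.Eventually.of_forall fun t => by positivity
      refine e5.trans ?_
      rw [← intervalIntegral.integral_add_adjacent_intervals
        (hcont.intervalIntegrable (((0 : ℕ) : ℝ) - Real.log d) 0)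
        (hcont.intervalIntegrable 0 (I : ℝ))]
      gcongr
      have e6 : ∫ t in (((0 : ℕ) : ℝ) - Real.log d)..0, ‖A t‖ ^ 2 ≤
          ∫ t in (((0 : ℕ) : ℝ) - Real.log d)..0, Real.exp 2 ^ 2 := by
        refine intervalIntegral.integral_mono_on (by push_cast; linarith)
          (hcont.intervalIntegrable _ _) (continuous_const.intervalIntegrable _ _) ?_
        intro t _
        exact pow_le_pow_left₀ (norm_nonneg _) (hA1 t) 2
      rw [intervalIntegral.integral_const] at e6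
      refine e6.trans (le_of_eq ?_)
      simp only [Nat.cast_zero, smul_eq_mul]
      ring
    nlinarith
  rw [Metric.tendsto_atTop]
  intro ε hε
  -- choose `ρ`
  set C : ℝ := 2 * Real.exp 3 ^ 2 with hC
  have hC0 : 0 < C := by positivity
  obtain ⟨ρ, hρ, hρ1, hρC⟩ : ∃ ρ : ℝ, 0 < ρ ∧ ρ ≤ 1 ∧ C * ρ ^ 2 ≤ ε / 4 := by
    refine ⟨min 1 (ε / (4 * C)), lt_min one_pos (by positivity), min_le_left _ _, ?_⟩
    have e1 : min 1 (ε / (4 * C)) ^ 2 ≤ ε / (4 * C) := by
      have e2 : 0 ≤ min 1 (ε / (4 * C)) := le_min zero_le_one (by positivity)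
      have e3 := min_le_left 1 (ε / (4 * C))
      have e4 := min_le_right 1 (ε / (4 * C))
      nlinarith
    calc C * min 1 (ε / (4 * C)) ^ 2 ≤ C * (ε / (4 * C)) :=
          mul_le_mul_of_nonneg_left e1 hC0.le
      _ = ε / 4 := by field_simp
  obtain ⟨T₀, hT₀, hT⟩ := hsml (ε * ρ / 8) (by positivity)
  set D : ℝ := 2 * (Real.exp 2 ^ 2 * Real.log d) with hD
  have hD0 : 0 ≤ D := by positivity
  refine ⟨⌈T₀⌉₊ + ⌈8 * D / (ε * ρ)⌉₊ + 1, fun I hI => ?_⟩
  have hI1 : T₀ ≤ I := by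
    refine (Nat.le_ceil T₀).trans ?_
    exact_mod_cast (by omega : ⌈T₀⌉₊ ≤ I)
  have hI2 : 8 * D / (ε * ρ) ≤ I := by
    refine (Nat.le_ceil _).trans ?_
    exact_mod_cast (by omega : ⌈8 * D / (ε * ρ)⌉₊ ≤ I)
  have hI0 : (0 : ℝ) < I := by exact_mod_cast (by omega : 0 < I)
  rw [div_le_iff₀ (by positivity)] at hI2
  have e1 := hsum ρ hρ hρ1 I
  have e2 := hT I hI1
  rw [dist_zero_right, Real.norm_eq_abs, abs_of_nonneg (by positivity), div_lt_iff₀ hI0]
  have e3 : C * ρ ^ 3 * I ≤ ε / 4 * ρ * I := by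
    have : C * ρ ^ 3 = C * ρ ^ 2 * ρ := by ring
    rw [this]
    gcongr
  have e4 : ρ * ∑ i ∈ range I, ‖GGg (rs f (d * q') (d * c')) (Real.exp i) k‖ ^ 2 <
      ρ * (ε * I) := by
    have e5 : (0 : ℝ) < ε * ρ * I := by positivity
    have e6 : ρ * ∑ i ∈ range I, ‖GGg (rs f (d * q') (d * c')) (Real.exp i) k‖ ^ 2 ≤
        D + 2 * (ε * ρ / 8 * I) + C * ρ ^ 3 * I := by
      refine e1.trans ?_
      rw [hD, hC]
      nlinarith
    nlinarith
  exact lt_of_mul_lt_mul_left e4 hρ.le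

end Pool.Agent.Y814.LT
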